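import Pool.Agent.MCM.PartTwo

set_option autoImplicit false

namespace Pool.Agent.Results.MP_7d5779_lc.PartTwo

open Pool.Agent.MCM

/-- **Part II of the many-one Martin conjecture implies Part II of Martin's conjecture**, for
every class `𝓕` of functions on Cantor space that is closed under `f ↦ (x ↦ (f x)')` and under
`f ↦ (x ↦ complement of f x)`. -/
theorem result (𝓕 : Set (Cantor → Cantor)) (hj : ∀ f ∈ 𝓕, (fun x => jump (f x)) ∈ 𝓕)
    (hc : ∀ f ∈ 𝓕, (fun x => co (f x)) ∈ 𝓕) (H : MCmII 𝓕) : MCII 𝓕 :=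
  MCII_of_MCmII 𝓕 hj hc H

end Pool.Agent.Results.MP_7d5779_lc.PartTwo
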