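import Pool.Agent.MCM.Reduction

set_option autoImplicit false

namespace Pool.Agent.Results.MP_7d5779_lc.Reduction

open Pool.Agent.MCM

/-- Let `m` be a determined `σ`-algebra on Cantor space and suppose that the many-one versions of
Martin's and Steel's conjectures hold for the `m`-measurable functions. Then `MC ∧ SC` holds for
them iff every Turing invariant one which is not constant on a cone is measure preserving. -/
theorem result (m : MeasurableSpace Cantor) (hm : DetAlgebra m) (H1 : MCmI (Fn m))
    (H2 : MCmII (Fn m)) (H3 : SCm (Fn m)) :
    (MCI (Fn m) ∧ MCII (Fn m) ∧ SC (Fn m)) ↔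
      ∀ f ∈ Fn m, TInv f → ConstOnCone f ∨ MeasPres f :=
  reduction hm H1 H2 H3

end Pool.Agent.Results.MP_7d5779_lc.Reduction
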