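import Pool.Agent.MCM.Reduction

set_option autoImplicit false

namespace Pool.Agent.Results.MP_7d5779_lc.UpToParameter

open Pool.Agent.MCM

/-- Let `m` be a determined `σ`-algebra on Cantor space and suppose that `SC_m` and Part I of
`MC_m` hold for the `m`-measurable functions. Then Part I of Martin's conjecture and Steel's
conjecture hold for them up to a constant parameter: if `f` is Turing invariant and not constant
on a cone then there are a real `c` and a uniformly Turing invariant `g` with
`x ≤_T f x ⊕ c ≡_T g x` on a cone. -/
theorem result (m : MeasurableSpace Cantor) (hm : DetAlgebra m) (H1 : MCmI (Fn m))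
    (H3 : SCm (Fn m)) :
    ∀ f ∈ Fn m, TInv f → ¬ ConstOnCone f →
      ∃ c, ∃ g ∈ Fn m, UTInv g ∧ ∃ d, Tred c d ∧
        ∀ x, Tred d x → Tred x (join (f x) c) ∧ Teq (join (f x) c) (g x) :=
  fun _ hf hT hn => param hm H1 H3 hf hT hn

end Pool.Agent.Results.MP_7d5779_lc.UpToParameter
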